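import Pool.Agent.helper61.CSW.W.SpecW

/-! Row WFS of block csw: (class S): THEOREM W for class S, the pure case. helper4 -/

set_option autoImplicit false

open Complex Metric Set Filter Topology MeasureTheory
open YPPS (fd fdd pre TT CV IsCyc rho Exact)
open MPS (BB)
open Pool.Agent.helper98.ILF (juliaSet fatouSet)

noncomputable section

open CSS (SE SV JJ)

namespace YW

/-- THEOREM W for class S, the pure case. -/
theorem WFS (hWFG : WFG_stmt) (hLIS : LIS_stmt) (hNPE : NPE_stmt) : WFS_stmt := by
  intro hXM f n μ hIF hcard hind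
  obtain ⟨X⟩ := hNPE f
  have hS := hLIS f X n μ hIF hcard hind
  have hA : AE f (∅ : Set ℂ) :=
    { fin := Set.finite_empty
      inv := fun z hz => absurd hz (Set.notMem_empty z)
      att := fun z hz => absurd hz (Set.notMem_empty z) }
  obtain ⟨δ, hδ, h⟩ := hWFG hXM f X ∅ n μ (fun _ _ => 0) hS hA
  exact ⟨δ, hδ, fun w m hm hw => h w m hm hw (Set.notMem_empty w)⟩

end YW
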